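import Mathlib

set_option autoImplicit false

namespace Pool.Agent.Results.MP_bdb63f_co.NoTriple

/-- A finite graph is 2-connected if it has at least three vertices, is connected, and has no cut
vertex: deleting any single vertex leaves a connected graph. -/
def TwoConnected {V : Type} [Fintype V] (G : SimpleGraph V) : Prop :=
  3 ≤ Fintype.card V ∧ G.Connected ∧ ∀ v : V, (G.induce {v}ᶜ).Connected

/-- `G` has an `(s,t)`-triple: a total order on the vertices and two edge-disjoint spanning trees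
`I`, `O` of `G` such that every vertex `v ≠ t` is joined by an edge of `I` to a larger vertex and
every vertex `v ≠ s` is joined by an edge of `O` to a smaller vertex. -/
def HasTriple {V : Type} (G : SimpleGraph V) (s t : V) : Prop :=
  ∃ (_ : LinearOrder V) (I O : SimpleGraph V),
    I ≤ G ∧ O ≤ G ∧ I.IsTree ∧ O.IsTree ∧ Disjoint I.edgeSet O.edgeSet ∧
    (∀ v : V, v ≠ t → ∃ w : V, v < w ∧ I.Adj v w) ∧
    (∀ v : V, v ≠ s → ∃ w : V, w < v ∧ O.Adj v w)

/-- Vertices of the counterexample: a centre `y`, three hubs, and cliques of size `m`; the clique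
with index `some (j, i)` is the `i`-th arm of hub `j`, the clique with index `none` is shared. -/
inductive Vtx (m : ℕ) : Type
  | y : Vtx m
  | hub : Fin 3 → Vtx m
  | clq : Option (Fin 3 × Fin m) → Fin m → Vtx m
  deriving DecidableEq, Fintype

/-- The relation generating the adjacency of the counterexample. -/
def adjR (m : ℕ) : Vtx m → Vtx m → Prop
  | .y, .clq _ _ => True
  | .clq c _, .clq c' _ => c = c'
  | .hub _, .clq none a => a.val = 0
  | .hub j, .clq (some p) a => j = p.1 ∧ a.val = 0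
  | _, _ => False

/-- The counterexample. -/
def Gr (m : ℕ) : SimpleGraph (Vtx m) := SimpleGraph.fromRel (adjR m)

variable {m : ℕ}

lemma adj_y_clq (c : Option (Fin 3 × Fin m)) (a : Fin m) : (Gr m).Adj .y (.clq c a) := by
  simp [Gr, SimpleGraph.fromRel_adj, adjR]

lemma adj_clq_clq (c : Option (Fin 3 × Fin m)) (a b : Fin m) (h : a ≠ b) :
    (Gr m).Adj (.clq c a) (.clq c b) := by
  simp [Gr, SimpleGraph.fromRel_adj, adjR, h]

lemma adj_hub_none (j : Fin 3) (a : Fin m) (h : a.val = 0) : (Gr m).Adj (.hub j) (.clq none a) := by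
  simp [Gr, SimpleGraph.fromRel_adj, adjR, h]

lemma adj_hub_some (j : Fin 3) (i a : Fin m) (h : a.val = 0) :
    (Gr m).Adj (.hub j) (.clq (some (j, i)) a) := by
  simp [Gr, SimpleGraph.fromRel_adj, adjR, h]

/-- Neighbours of an arm vertex. -/
lemma adj_arm_iff (j : Fin 3) (i a : Fin m) (w : Vtx m) :
    (Gr m).Adj (.clq (some (j, i)) a) w ↔
      w = .y ∨ (w = .hub j ∧ a.val = 0) ∨ ∃ b, b ≠ a ∧ w = .clq (some (j, i)) b := by
  rcases w with _ | j' | ⟨_ | ⟨j', i'⟩, b⟩
  · simp [Gr, SimpleGraph.fromRel_adj, adjR]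
  · simp [Gr, SimpleGraph.fromRel_adj, adjR]
  · simp [Gr, SimpleGraph.fromRel_adj, adjR]
  · simp only [Gr, SimpleGraph.fromRel_adj, adjR]
    constructor
    · rintro ⟨h1, h2⟩
      have h3 : j = j' ∧ i = i' := by
        rcases h2 with h2 | h2 <;> simp_all
      obtain ⟨rfl, rfl⟩ := h3
      right; right
      exact ⟨b, by rintro rfl; exact h1 rfl, rfl⟩
    · rintro (h | h | ⟨b', hb', h⟩)
      · exact absurd h (by simp)
      · exact absurd h.1 (by simp)
      · simp only [Vtx.clq.injEq, Option.some.injEq, Prod.mk.injEq] at h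
        obtain ⟨⟨rfl, rfl⟩, rfl⟩ := h
        simp [Ne.symm hb']

/-- Neighbours of a hub. -/
lemma adj_hub_iff (j : Fin 3) (w : Vtx m) :
    (Gr m).Adj (.hub j) w ↔
      (∃ a : Fin m, a.val = 0 ∧ w = .clq none a) ∨
      ∃ i a : Fin m, a.val = 0 ∧ w = .clq (some (j, i)) a := by
  rcases w with _ | j' | ⟨_ | ⟨j', i'⟩, b⟩
  · simp [Gr, SimpleGraph.fromRel_adj, adjR]
  · simp [Gr, SimpleGraph.fromRel_adj, adjR]
  · simp [Gr, SimpleGraph.fromRel_adj, adjR]
  · simp only [Gr, SimpleGraph.fromRel_adj, adjR]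
    constructor
    · rintro ⟨-, h | h⟩
      · right
        obtain ⟨rfl, h⟩ := h
        exact ⟨i', b, h, rfl⟩
      · exact absurd h (by simp)
    · rintro (⟨a, ha, h⟩ | ⟨i, a, ha, h⟩)
      · exact absurd h (by simp)
      · simp only [Vtx.clq.injEq, Option.some.injEq, Prod.mk.injEq] at h
        obtain ⟨⟨rfl, rfl⟩, rfl⟩ := h
        simp [ha]

/-- Key step: in the gadget of a hub not meeting `s`, `t`, an arm forces the position of the hub
and uses up the single edge between the arm and the hub. -/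
lemma arm_forced (hm : 0 < m) [LinearOrder (Vtx m)] (I O : SimpleGraph (Vtx m))
    (hI : I ≤ Gr m) (hO : O ≤ Gr m) (j : Fin 3) (i : Fin m)
    (up : ∀ a : Fin m, ∃ w, (Vtx.clq (some (j, i)) a) < w ∧ I.Adj (Vtx.clq (some (j, i)) a) w)
    (down : ∀ a : Fin m, ∃ w, w < (Vtx.clq (some (j, i)) a) ∧ O.Adj (Vtx.clq (some (j, i)) a) w)
    (z : Fin m) (hz : z.val = 0) :
    ((Vtx.y : Vtx m) < Vtx.hub j ∧ Vtx.clq (some (j, i)) z < Vtx.hub j ∧
        I.Adj (Vtx.clq (some (j, i)) z) (Vtx.hub j)) ∨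
    ((Vtx.hub j : Vtx m) < Vtx.y ∧ Vtx.hub j < Vtx.clq (some (j, i)) z ∧
        O.Adj (Vtx.clq (some (j, i)) z) (Vtx.hub j)) := by
  have : Nonempty (Fin m) := ⟨⟨0, hm⟩⟩
  obtain ⟨p, hp⟩ := Finite.exists_min (fun a : Fin m => (Vtx.clq (some (j, i)) a : Vtx m))
  obtain ⟨q, hq⟩ := Finite.exists_max (fun a : Fin m => (Vtx.clq (some (j, i)) a : Vtx m))
  obtain ⟨w, hw1, hw2⟩ := down p
  obtain ⟨w', hw1', hw2'⟩ := up q
  have e1 := (adj_arm_iff j i p w).1 (hO hw2)
  have e2 := (adj_arm_iff j i q w').1 (hI hw2')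
  have zeq : ∀ a : Fin m, a.val = 0 → a = z := fun a ha => Fin.ext (by omega)
  rcases e1 with rfl | ⟨rfl, hp0⟩ | ⟨b, -, rfl⟩
  · rcases e2 with rfl | ⟨rfl, hq0⟩ | ⟨b, -, rfl⟩
    · exact absurd (lt_of_lt_of_le hw1 (hp q)) (not_lt_of_gt hw1')
    · left
      have := zeq q hq0
      subst this
      exact ⟨lt_of_lt_of_le hw1 (hp q) |>.trans hw1', hw1', hw2'⟩
    · exact absurd hw1' (not_lt_of_ge (hq b))
  · rcases e2 with rfl | ⟨rfl, hq0⟩ | ⟨b, -, rfl⟩
    · right
      have := zeq p hp0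
      subst this
      exact ⟨(lt_of_lt_of_le hw1 (hp q)).trans hw1', hw1, hw2⟩
    · exact absurd (lt_of_lt_of_le hw1 (hp q)) (not_lt_of_gt hw1')
    · exact absurd hw1' (not_lt_of_ge (hq b))
  · exact absurd hw1 (not_lt_of_ge (hp b))

/-- The gadget index of a vertex. -/
def gad : Vtx m → Option (Fin 3)
  | .y => none
  | .hub j => some j
  | .clq none _ => none
  | .clq (some p) _ => some p.1

lemma exists_free (p q : Option (Fin 3)) : ∃ j : Fin 3, p ≠ some j ∧ q ≠ some j := by
  revert p q; decide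

lemma no_triple (hm : 0 < m) (s t : Vtx m) : ¬ HasTriple (Gr m) s t := by
  rintro ⟨ord, I, O, hI, hO, -, -, hdis, hup, hdown⟩
  obtain ⟨j, hjs, hjt⟩ := exists_free (gad s) (gad t)
  have hs : ∀ v : Vtx m, gad v = some j → v ≠ s := by
    rintro v hv rfl; exact hjs hv
  have ht : ∀ v : Vtx m, gad v = some j → v ≠ t := by
    rintro v hv rfl; exact hjt hv
  let z : Fin m := ⟨0, hm⟩
  have key : ∀ i : Fin m, ((Vtx.y : Vtx m) < Vtx.hub j ∧ Vtx.clq (some (j, i)) z < Vtx.hub j ∧
        I.Adj (Vtx.clq (some (j, i)) z) (Vtx.hub j)) ∨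
      ((Vtx.hub j : Vtx m) < Vtx.y ∧ Vtx.hub j < Vtx.clq (some (j, i)) z ∧
        O.Adj (Vtx.clq (some (j, i)) z) (Vtx.hub j)) := fun i =>
    arm_forced hm I O hI hO j i (fun a => hup _ (ht _ rfl)) (fun a => hdown _ (hs _ rfl)) z rfl
  have nodis : ∀ u v : Vtx m, I.Adj u v → O.Adj u v → False := by
    intro u v h1 h2
    exact Set.disjoint_left.1 hdis (I.mem_edgeSet.2 h1) (O.mem_edgeSet.2 h2)
  obtain ⟨w, hw1, hw2⟩ := hup (Vtx.hub j) (ht _ rfl)
  obtain ⟨w', hw1', hw2'⟩ := hdown (Vtx.hub j) (hs _ rfl)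
  have zeq : ∀ a : Fin m, a.val = 0 → a = z := fun a ha => Fin.ext (by simpa using ha)
  have e1 := (adj_hub_iff j w).1 (hI hw2)
  have e2 := (adj_hub_iff j w').1 (hO hw2')
  rcases lt_trichotomy (Vtx.y : Vtx m) (Vtx.hub j) with hy | hy | hy
  · have key' : ∀ i : Fin m, Vtx.clq (some (j, i)) z < Vtx.hub j ∧
        I.Adj (Vtx.clq (some (j, i)) z) (Vtx.hub j) := by
      intro i
      rcases key i with h | h
      · exact h.2
      · exact absurd h.1 (not_lt_of_gt hy)
    rcases e1 with ⟨a, ha, rfl⟩ | ⟨i, a, ha, rfl⟩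
    · rcases e2 with ⟨b, hb, rfl⟩ | ⟨i, b, hb, rfl⟩
      · have h1 := zeq a ha
        have h2 := zeq b hb
        rw [h1] at hw1
        rw [h2] at hw1'
        exact absurd hw1 (not_lt_of_gt hw1')
      · have h2 := zeq b hb
        rw [h2] at hw2'
        exact nodis _ _ (key' i).2 hw2'.symm
    · have h1 := zeq a ha
      rw [h1] at hw1
      exact absurd hw1 (not_lt_of_gt (key' i).1)
  · exact absurd hy (by simp)
  · have key' : ∀ i : Fin m, Vtx.hub j < Vtx.clq (some (j, i)) z ∧
        O.Adj (Vtx.clq (some (j, i)) z) (Vtx.hub j) := by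
      intro i
      rcases key i with h | h
      · exact absurd h.1 (not_lt_of_gt hy)
      · exact h.2
    rcases e2 with ⟨b, hb, rfl⟩ | ⟨i, b, hb, rfl⟩
    · rcases e1 with ⟨a, ha, rfl⟩ | ⟨i, a, ha, rfl⟩
      · have h1 := zeq a ha
        have h2 := zeq b hb
        rw [h1] at hw1
        rw [h2] at hw1'
        exact absurd hw1 (not_lt_of_gt hw1')
      · have h1 := zeq a ha
        rw [h1] at hw2
        exact nodis _ _ hw2.symm (key' i).2
    · have h2 := zeq b hb
      rw [h2] at hw1'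
      exact absurd hw1' (not_lt_of_gt (key' i).1)

/-- Deleting fewer than `m` edges keeps every clique vertex connected to `y`. -/
lemma reach_clq (E : Set (Sym2 (Vtx m))) (hE : E.encard < m) (c : Option (Fin 3 × Fin m))
    (a : Fin m) : ((Gr m).deleteEdges E).Reachable (.clq c a) .y := by
  classical
  by_cases h0 : s(Vtx.clq c a, Vtx.y) ∈ E
  · by_cases hb : ∃ b : Fin m, b ≠ a ∧ s(Vtx.clq c a, Vtx.clq c b) ∉ E ∧ s(Vtx.clq c b, Vtx.y) ∉ E
    · obtain ⟨b, hb, h1, h2⟩ := hb
      have e1 : ((Gr m).deleteEdges E).Adj (.clq c a) (.clq c b) := by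
        rw [SimpleGraph.deleteEdges_adj]
        exact ⟨adj_clq_clq c a b (Ne.symm hb), h1⟩
      have e2 : ((Gr m).deleteEdges E).Adj (.clq c b) .y := by
        rw [SimpleGraph.deleteEdges_adj]
        exact ⟨(adj_y_clq c b).symm, h2⟩
      exact e1.reachable.trans e2.reachable
    · exfalso
      push Not at hb
      let φ : Fin m → Sym2 (Vtx m) := fun b =>
        if b = a then s(Vtx.clq c a, Vtx.y)
        else if s(Vtx.clq c a, Vtx.clq c b) ∈ E then s(Vtx.clq c a, Vtx.clq c b)
        else s(Vtx.clq c b, Vtx.y)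
      have hφE : ∀ b, φ b ∈ E := by
        intro b
        by_cases h1 : b = a
        · simp only [φ, if_pos h1]; exact h0
        · by_cases h2 : s(Vtx.clq c a, Vtx.clq c b) ∈ E
          · simp only [φ, if_neg h1, if_pos h2]; exact h2
          · simp only [φ, if_neg h1, if_neg h2]; exact hb b h1 h2
      have hφinj : Function.Injective φ := by
        intro b b' hbb
        have mem : ∀ x : Fin m, (Vtx.clq c x : Vtx m) ∈ φ b ↔ (x = b ∨ (x = a ∧ (Vtx.y : Vtx m) ∉ φ b)) := by
          intro x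
          simp only [φ]
          split_ifs with h1 h2
          · subst h1; simp
          · simp [or_comm]
          · simp
        have mem' : ∀ x : Fin m, (Vtx.clq c x : Vtx m) ∈ φ b' ↔ (x = b' ∨ (x = a ∧ (Vtx.y : Vtx m) ∉ φ b')) := by
          intro x
          simp only [φ]
          split_ifs with h1 h2
          · subst h1; simp
          · simp [or_comm]
          · simp
        have h1 := (mem b).2 (Or.inl rfl)
        rw [hbb, mem' b] at h1
        rcases h1 with h1 | ⟨h1, h1'⟩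
        · exact h1
        · have h2 := (mem' b').2 (Or.inl rfl)
          rw [← hbb, mem b'] at h2
          rcases h2 with h2 | ⟨h2, -⟩
          · exact h2.symm
          · rw [h1, h2]
      have h3 : (Set.range φ).encard ≤ E.encard :=
        Set.encard_le_encard (by rintro _ ⟨b, rfl⟩; exact hφE b)
      have h4 : (Set.range φ).encard = m := by
        rw [← Set.image_univ, hφinj.encard_image, Set.encard_univ]
        simp
      rw [h4] at h3
      exact absurd hE (not_lt_of_ge h3)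
  · have e : ((Gr m).deleteEdges E).Adj (.clq c a) .y := by
      rw [SimpleGraph.deleteEdges_adj]
      exact ⟨(adj_y_clq c a).symm, h0⟩
    exact e.reachable

lemma reach_hub (hm : 0 < m) (E : Set (Sym2 (Vtx m))) (hE : E.encard < m) (j : Fin 3) :
    ((Gr m).deleteEdges E).Reachable (.hub j) .y := by
  classical
  by_cases hb : ∃ i : Fin m, s(Vtx.hub j, Vtx.clq (some (j, i)) ⟨0, hm⟩) ∉ E
  · obtain ⟨i, hi⟩ := hb
    have e : ((Gr m).deleteEdges E).Adj (.hub j) (.clq (some (j, i)) ⟨0, hm⟩) := by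
      rw [SimpleGraph.deleteEdges_adj]
      exact ⟨adj_hub_some j i _ rfl, hi⟩
    exact e.reachable.trans (reach_clq E hE _ _)
  · exfalso
    push Not at hb
    let φ : Fin m → Sym2 (Vtx m) := fun i => s(Vtx.hub j, Vtx.clq (some (j, i)) ⟨0, hm⟩)
    have hφinj : Function.Injective φ := by
      intro b b' hbb
      simpa [φ] using hbb
    have h3 : (Set.range φ).encard ≤ E.encard :=
      Set.encard_le_encard (by rintro _ ⟨b, rfl⟩; exact hb b)
    have h4 : (Set.range φ).encard = m := by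
      rw [← Set.image_univ, hφinj.encard_image, Set.encard_univ]
      simp
    rw [h4] at h3
    exact absurd hE (not_lt_of_ge h3)

lemma edgeConnected (hm : 0 < m) : (Gr m).IsEdgeConnected m := by
  have key : ∀ (E : Set (Sym2 (Vtx m))), E.encard < m → ∀ u : Vtx m,
      ((Gr m).deleteEdges E).Reachable u .y := by
    intro E hE u
    rcases u with _ | j | ⟨c, a⟩
    · exact SimpleGraph.Reachable.refl _
    · exact reach_hub hm E hE j
    · exact reach_clq E hE _ _
  intro u v E hE
  exact (key E hE u).trans (key E hE v).symm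

lemma connected_induce_of_forall {V : Type} (G : SimpleGraph V) (S : Set V) (r : V) (hr : r ∈ S)
    (h : ∀ v (hv : v ∈ S), (G.induce S).Reachable ⟨v, hv⟩ ⟨r, hr⟩) : (G.induce S).Connected := by
  have : Nonempty S := ⟨⟨r, hr⟩⟩
  refine SimpleGraph.Connected.mk ?_
  rintro ⟨u, hu⟩ ⟨v, hv⟩
  exact (h u hu).trans (h v hv).symm

lemma induce_reach {V : Type} (G : SimpleGraph V) (S : Set V) (u v : V) (hu : u ∈ S) (hv : v ∈ S)
    (h : G.Adj u v) : (G.induce S).Reachable ⟨u, hu⟩ ⟨v, hv⟩ := by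
  apply SimpleGraph.Adj.reachable
  simpa using h

lemma connected_delete (hm : 1 < m) (v : Vtx m) : ((Gr m).induce {v}ᶜ).Connected := by
  have hm0 : 0 < m := by omega
  by_cases hv : v = .y
  · subst hv
    have hr : (Vtx.clq none ⟨0, hm0⟩ : Vtx m) ∈ ({Vtx.y}ᶜ : Set (Vtx m)) := by simp
    apply connected_induce_of_forall _ _ _ hr
    intro u hu
    have hhub : ∀ j : Fin 3, ((Gr m).induce {Vtx.y}ᶜ).Reachable ⟨.hub j, by simp⟩
        ⟨.clq none ⟨0, hm0⟩, hr⟩ := by
      intro j
      exact induce_reach _ _ _ _ _ _ (adj_hub_none j _ rfl)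
    rcases u with _ | j | ⟨_ | ⟨j, i⟩, a⟩
    · exact absurd hu (by simp)
    · exact hhub j
    · by_cases ha : a = ⟨0, hm0⟩
      · subst ha; exact SimpleGraph.Reachable.refl _
      · exact induce_reach _ _ _ _ _ _ (adj_clq_clq none _ _ ha)
    · have h1 : ((Gr m).induce {Vtx.y}ᶜ).Reachable ⟨.clq (some (j, i)) ⟨0, hm0⟩, by simp⟩
          ⟨.clq none ⟨0, hm0⟩, hr⟩ :=
        (induce_reach _ _ _ _ _ _ (adj_hub_some j i _ rfl).symm).trans (hhub j)
      by_cases ha : a = ⟨0, hm0⟩
      · subst ha; exact h1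
      · exact (induce_reach _ _ _ _ _ _ (adj_clq_clq _ _ _ ha)).trans h1
  · have hr : (Vtx.y : Vtx m) ∈ ({v}ᶜ : Set (Vtx m)) := by
      simpa [eq_comm] using hv
    apply connected_induce_of_forall _ _ _ hr
    intro u hu
    rcases u with _ | j | ⟨c, a⟩
    · exact SimpleGraph.Reachable.refl _
    · obtain ⟨i, hi⟩ : ∃ i : Fin m, (Vtx.clq (some (j, i)) ⟨0, hm0⟩ : Vtx m) ∈ ({v}ᶜ : Set (Vtx m)) := by
        by_cases h : (Vtx.clq (some (j, ⟨0, hm0⟩)) ⟨0, hm0⟩ : Vtx m) ∈ ({v}ᶜ : Set (Vtx m))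
        · exact ⟨_, h⟩
        · refine ⟨⟨1, hm⟩, ?_⟩
          simp only [Set.mem_compl_iff, Set.mem_singleton_iff, not_not] at h ⊢
          rw [← h]
          simp
      exact (induce_reach _ _ _ _ _ hi (adj_hub_some j i _ rfl)).trans
        (induce_reach _ _ _ _ _ _ (adj_y_clq _ _).symm)
    · exact induce_reach _ _ _ _ _ _ (adj_y_clq _ _).symm

lemma twoConnected (hm : 1 < m) : TwoConnected (Gr m) := by
  refine ⟨?_, ?_, connected_delete hm⟩
  · have h : Fintype.card (Fin 3) ≤ Fintype.card (Vtx m) :=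
      Fintype.card_le_of_injective (fun j => Vtx.hub j) (by intro a b h; simpa using h)
    simpa using h
  · have : Nonempty (Vtx m) := ⟨.y⟩
    exact (edgeConnected (by omega)).connected (by omega)

/-- Negative answer to Q1: for every `L` there is a finite (even simple) graph which is 2-connected
and `L`-edge-connected but has no `(s,t)`-triple for any two distinct vertices `s`, `t`. -/
theorem result : ∀ L : ℕ, ∃ (V : Type) (_ : Fintype V) (G : SimpleGraph V),
    TwoConnected G ∧ G.IsEdgeConnected L ∧ ∀ s t : V, s ≠ t → ¬ HasTriple G s t := by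
  intro L
  refine ⟨Vtx (L + 2), inferInstance, Gr (L + 2), twoConnected (by omega), ?_, ?_⟩
  · intro u v
    exact (edgeConnected (m := L + 2) (by omega) u v).anti (by omega)
  · intro s t _
    exact no_triple (by omega) s t

end Pool.Agent.Results.MP_bdb63f_co.NoTriple
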